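import Pool.Agent.Q59.DM.Main

/-!
# The dynamical Mordell-Lang conjecture: reduction to birational quadratic maps of affine spaces

The dynamical Mordell-Lang conjecture for all quasiprojective varieties over `ℂ`, all endomorphisms
and all closed subvarieties is equivalent to

* its case of birational polynomial maps `ℂ ^ σ → ℂ ^ σ` of degree two and coordinate hyperplanes;
* its case of the Hénon type maps `(x, z, u) ↦ (Θ(x) + u z, x, u)` of `ℂ ^ (2 N + 1)`, where each of the
  `N` coordinates of `Θ(x)` is the sum or the product of two coordinates of `x`, and of coordinate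
  hyperplanes. For fixed `u ≠ 0` this map is a polynomial automorphism of `ℂ ^ (2 N)` (for these
  points the conjecture is a theorem of Bell, Ghioca and Tucker), so that only the
  points with `u = 0` matter;
* the statement that a coordinate of an orbit of such a map `Θ` which vanishes infinitely often
  vanishes along an infinite arithmetic progression.

Method.

(1) A locally closed `X ⊆ ℙ ^ N`, `X = {A = 0, some G_b ≠ 0}`, is covered by the affine variety `Y` of the
pairs `(P, w)` of a matrix of rank one and trace one, whose image is a point of `X`, and of numbers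
with `∑ w_{b,j} G_b(P e_j) = 1` (Jouanolou's trick). The matrices whose image is a given line form an
affine space; so, by the Nullstellensatz, a regular map `Φ : X → X`, which is only locally given by
polynomials, lifts to a polynomial map `Y → Y`, and this is the restriction of a polynomial map of
an affine space. So the conjecture for affine spaces implies the one for all `X`.

(2) A polynomial map of an affine space is simulated by a map `Θ`, whose coordinates are the
intermediate results at all the stages of the computation (a pipeline): a coordinate of the orbit of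
`Θ` at the time `t` is the value of the given polynomial at the time `⌈t / (k + 1)⌉`.

(3) If for all these maps an infinite return set contains an arithmetic progression, then all the
return sets are finite unions of arithmetic progressions, by an argument with the Noetherian
property.

(4) At `u = 0` the map `(x, z, u) ↦ (Θ(x) + u z, x, u)` is `(x, z) ↦ (Θ(x), x)`. It is birational:
`z = (x' - Θ(z')) / u`. Its homogenisation defines a regular map of `{x_0 ≠ 0} ⊆ ℙ ^ (2 N + 1)`.
-/

set_option autoImplicit false

namespace Pool.Agent.Results.MP_295d38_ag.BirationalReduction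

open MvPolynomial

/-- `S` is a finite union of arithmetic progressions `{a + b k : k ∈ ℕ}`, `b = 0` is allowed. -/
def IsAP (S : Set ℕ) : Prop :=
  ∃ T : Finset (ℕ × ℕ), S = {n : ℕ | ∃ t ∈ T, ∃ k : ℕ, n = t.1 + t.2 * k}

/-- The dynamical Mordell-Lang conjecture for all quasiprojective varieties over `ℂ` (the statement of
the problem): `X` is a locally closed subset of `ℙ ^ N`, `Φ` a map `X → X` which is locally given by
homogeneous polynomials, `α` a point of `X` and `V` a Zariski closed set. -/
def DML : Prop :=
  ∀ (N : ℕ) (X : Set (Projectivization ℂ (Fin (N + 1) → ℂ))),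
    (∃ A B : Set (MvPolynomial (Fin (N + 1)) ℂ),
      (∀ F ∈ A, ∃ d : ℕ, F.IsHomogeneous d) ∧ (∀ F ∈ B, ∃ d : ℕ, F.IsHomogeneous d) ∧
      ∀ p : Projectivization ℂ (Fin (N + 1) → ℂ), p ∈ X ↔
        ((∀ F ∈ A, MvPolynomial.eval p.rep F = 0) ∧ ∃ F ∈ B, MvPolynomial.eval p.rep F ≠ 0)) →
    ∀ Φ : Projectivization ℂ (Fin (N + 1) → ℂ) → Projectivization ℂ (Fin (N + 1) → ℂ),
      (∀ x ∈ X, Φ x ∈ X) →
      (∀ x ∈ X, ∃ (d e : ℕ) (F : Fin (N + 1) → MvPolynomial (Fin (N + 1)) ℂ)
          (g : MvPolynomial (Fin (N + 1)) ℂ),
          (∀ i, (F i).IsHomogeneous d) ∧ g.IsHomogeneous e ∧ MvPolynomial.eval x.rep g ≠ 0 ∧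
          ∀ y ∈ X, MvPolynomial.eval y.rep g ≠ 0 →
            (fun i : Fin (N + 1) => MvPolynomial.eval y.rep (F i)) ≠ 0 ∧
            (fun i : Fin (N + 1) => MvPolynomial.eval y.rep (F i)) ∈ (Φ y).submodule) →
      ∀ α ∈ X, ∀ V : Set (Projectivization ℂ (Fin (N + 1) → ℂ)),
        (∃ C : Set (MvPolynomial (Fin (N + 1)) ℂ),
          (∀ F ∈ C, ∃ d : ℕ, F.IsHomogeneous d) ∧
          ∀ p : Projectivization ℂ (Fin (N + 1) → ℂ), p ∈ V ↔
            ∀ F ∈ C, MvPolynomial.eval p.rep F = 0) →
        IsAP {n : ℕ | Φ^[n] α ∈ V}

/-- `F : ℂ ^ σ → ℂ ^ σ` is birational: `x_i = G_i(F(x)) / D(F(x))` with polynomials `G_i` and `D`,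
`D(F(x)) ≠ 0`. -/
def IsBirational {σ : Type} (F : σ → MvPolynomial σ ℂ) : Prop :=
  ∃ (D : MvPolynomial σ ℂ) (G : σ → MvPolynomial σ ℂ), bind₁ F D ≠ 0 ∧
    ∀ i, bind₁ F (G i) = X i * bind₁ F D

/-- The conjecture for the birational polynomial maps of affine spaces of degree at most two and for
coordinate hyperplanes. -/
def BirationalQuadratic : Prop :=
  ∀ (σ : Type) [Finite σ] (F : σ → MvPolynomial σ ℂ), (∀ i, (F i).totalDegree ≤ 2) →
    IsBirational F → ∀ (y : σ → ℂ) (i : σ),
      IsAP {n : ℕ | (fun x j => eval x (F j))^[n] y i = 0}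

/-- The map `Θ : ℂ ^ N → ℂ ^ N` each of whose coordinates is the sum (`true`) or the product (`false`) of
two coordinates. -/
def Theta {N : ℕ} (op : Fin N → Bool × Fin N × Fin N) (x : Fin N → ℂ) : Fin N → ℂ := fun i =>
  if (op i).1 then x (op i).2.1 + x (op i).2.2 else x (op i).2.1 * x (op i).2.2

/-- The Hénon type map `(x, z, u) ↦ (Θ(x) + u z, x, u)`. -/
def henon {N : ℕ} (op : Fin N → Bool × Fin N × Fin N)
    (s : (Fin N → ℂ) × (Fin N → ℂ) × ℂ) : (Fin N → ℂ) × (Fin N → ℂ) × ℂ :=
  (fun i => Theta op s.1 i + s.2.2 * s.2.1 i, s.1, s.2.2)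

/-- The conjecture for the Hénon type maps and the coordinate hyperplanes `x_i = 0`. -/
def Henon : Prop :=
  ∀ (N : ℕ) (op : Fin N → Bool × Fin N × Fin N) (s : (Fin N → ℂ) × (Fin N → ℂ) × ℂ) (i : Fin N),
    IsAP {n : ℕ | ((henon op)^[n] s).1 i = 0}

/-- A coordinate of an orbit of a map `Θ` which vanishes infinitely often vanishes along an infinite
arithmetic progression. -/
def Weak : Prop :=
  ∀ (N : ℕ) (op : Fin N → Bool × Fin N × Fin N) (y : Fin N → ℂ) (i : Fin N),
    {n : ℕ | (Theta op)^[n] y i = 0}.Infinite →
      ∃ a b : ℕ, 0 < b ∧ ∀ k : ℕ, (Theta op)^[a + b * k] y i = 0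

/-- **The dynamical Mordell-Lang conjecture: reduction to birational quadratic maps of affine
spaces.** The following are equivalent: the conjecture for all quasiprojective varieties over `ℂ`; its
case of birational quadratic polynomial maps of affine spaces and coordinate hyperplanes; its case
of the Hénon type maps `(x, z, u) ↦ (Θ(x) + u z, x, u)`, where the coordinates of `Θ(x)` are sums and
products of two coordinates; the existence of one arithmetic progression in each infinite return
set of a map `Θ` and a coordinate hyperplane. Moreover the Hénon type maps are bijective on the sets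
`u = c`, `c ≠ 0`. -/
theorem result :
    [DML, BirationalQuadratic, Henon, Weak].TFAE ∧
    ∀ (N : ℕ) (op : Fin N → Bool × Fin N × Fin N) (c : ℂ), c ≠ 0 →
      Set.BijOn (henon op) {s | s.2.2 = c} {s | s.2.2 = c} := by
  refine ⟨Pool.Agent.Q59.DM.tfae, fun N op c hc => ⟨fun s hs => hs, ?_, ?_⟩⟩
  · rintro ⟨x, z, u⟩ hu ⟨x', z', u'⟩ hu' h
    have h1 : (fun i => Theta op x i + u * z i) = fun i => Theta op x' i + u' * z' i :=
      congrArg Prod.fst h
    have h2 : x = x' := congrArg (fun s => s.2.1) h
    have h3 : u = c := hu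
    have h4 : u' = c := hu'
    subst h2 h3 h4
    have h5 : z = z' := by
      funext i
      exact mul_left_cancel₀ hc (add_left_cancel (congrFun h1 i))
    rw [h5]
  · rintro ⟨a, b, u⟩ hu
    have h3 : u = c := hu
    subst h3
    refine ⟨(b, fun i => (a i - Theta op b i) / u, u), rfl, ?_⟩
    show (fun i => Theta op b i + u * ((a i - Theta op b i) / u), b, u) = (a, b, u)
    have h4 : (fun i => Theta op b i + u * ((a i - Theta op b i) / u)) = a := by
      funext i
      rw [mul_div_cancel₀ _ hc, add_sub_cancel]
    rw [h4]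

end Pool.Agent.Results.MP_295d38_ag.BirationalReduction
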