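import Pool.Agent.Q118.SK.Base

/-!
# Dynamical Mordell-Lang for polynomial maps with one étale, or postcritically escaping, fibre

Let `F(t, x) = (b(t), G(t, x))` be a polynomial map of the affine space of dimension `M + 1`, where
`b` is a polynomial of degree at least two, `b(0) = 0`, `b'(0) ≠ 0` (a fixed point with multiplier
different from zero can be moved to `0`), and where `G` consists of `M` arbitrary complex polynomials
in all the variables. Suppose that the ramification of the map `G_0 = G(0, ·)` of the fibre over the
fixed point `0` never returns to itself:

`det (∂ G_0 / ∂ x) = c ∏ J`, `c ≠ 0`, where each hypersurface `J = 0` is escaping: there are finitely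
many hypersurfaces `P_i = 0`, `P_0 = J`, such that `G_0` maps `P_i = 0` to `P_(i + 1) = 0`, and such
that `P_i = 0` does not meet `J = 0` for `i ≥ 1`.

For example `G_0` can be étale, in particular an automorphism such as a Hénon map (then there is no
`J`); the hyperplane `x_k = c` is escaping if the `k`-th coordinate of `G_0` is a polynomial `g(x_k)` for
which `c` is strictly preperiodic (second part of the theorem), so that `G_0` can be a product of
polynomials all of whose critical points are strictly preperiodic, or a map
`(x, y) ↦ (g(x), H(x, y))` with `det (∂ H / ∂ y) = (x - c) ^ m`.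

Then the Dynamical Mordell-Lang conjecture holds for `F`, for all closed subsets and all complex points
`(t, x)` such that

* `t` is mapped to `0` by an iterate of `b`, or
* `b` has algebraic coefficients and `t` is any complex number that is not preperiodic for `b`, or
* `t` is transcendental over the field generated by the coefficients of `b`.

The definitions (in the helper files):
* `asys b G` is the system `(b(X_0), G)`; `fib q` is `q(0, X_0, …, X_(M - 1))`;
* `fibJac G` is the matrix of the partial derivatives of `G_0`;
* `Escaping G_0 J` is the property above;
* `pt F x` is the value of the system at `x`;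
* `AffDML F x`: for every set `S` of polynomials the set of the `n` such that all members of `S`
  vanish at the `n`-th iterate of `x` is a finite union of arithmetic progressions.

The proof: some iterate of `t` comes near to a preimage of `0` at a place whose residue characteristic
is large, where all data have good reduction. For algebraic `t` this is the unit equation; for
transcendental `t` the place is constructed by a specialisation of `t` near one of the infinitely many
preimages of `0`. The reduction of the orbit then enters the fibre over `0`, so that the orbit is étale
from some index on, and `p`-adic interpolation applies.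
-/

set_option autoImplicit false

namespace Pool.Agent.Results.MP_295d38_ag.EtaleSpecialFibre

open MvPolynomial Pool.Agent.H936R2 Pool.Agent.Y199.DM Pool.Agent.Q118.SK

/-- The Dynamical Mordell-Lang conjecture over wandering points of the base, and examples
of escaping hypersurfaces. -/
theorem result :
    (∀ (M : ℕ) (b : Polynomial ℂ), 2 ≤ b.natDegree → b.coeff 0 = 0 → b.coeff 1 ≠ 0 →
      ∀ (G : Fin M → MvPolynomial (Fin (M + 1)) ℂ) (c : ℂ) (m : Multiset (MvPolynomial (Fin M) ℂ)),
      c ≠ 0 → (fibJac G).det = C c * m.prod → (∀ J ∈ m, Escaping (fun i => fib (G i)) J) →
      ∀ x : Fin (M + 1) → ℂ,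
        ((∃ n, (fun z => b.eval z)^[n] (x 0) = 0) ∨
          ((∀ k, IsAlgebraic ℚ (b.coeff k)) ∧
            ∀ i j, i < j → (fun z => b.eval z)^[i] (x 0) ≠ (fun z => b.eval z)^[j] (x 0)) ∨
          Transcendental (IntermediateField.adjoin ℚ (Set.range b.coeff)) (x 0)) →
        AffDML (asys b G) x) ∧
    ∀ (M : ℕ) (G : Fin M → MvPolynomial (Fin M) ℂ) (k : Fin M) (g : Polynomial ℂ),
      G k = Polynomial.aeval (X k) g → ∀ c : ℂ,
      (Set.range fun i : ℕ => (fun z => g.eval z)^[i] c).Finite →
      (∀ i : ℕ, 1 ≤ i → (fun z => g.eval z)^[i] c ≠ c) → Escaping G (X k - C c) :=
  ⟨fun _ b hd hb0 hb1 G c m hc hJ hm x hx =>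
      aff_all b hb0 hb1 G c hc m hJ hm x (reach_poly_of b hd hb0 hb1 _ hx),
    fun _ G k g hG c hfin hne => escaping_coord G k g hG c hfin hne⟩

end Pool.Agent.Results.MP_295d38_ag.EtaleSpecialFibre
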