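import Pool.Agent.Q118.SK.Base

/-!
# Polynomial skew maps: hypersurfaces which are met only finitely often

Let `F(t, x) = (b(t), G(t, x))` be a polynomial map of the affine space of dimension `M + 1`, where
`b` is a polynomial of degree at least two with `b(0) = 0`, `b'(0) ≠ 0` (a fixed point with multiplier
different from zero can be moved to `0`), and where `G` consists of `M` arbitrary complex polynomials
in all the variables; there is no condition on the ramification of `F`. Let `g(t, x)` be a polynomial
whose restriction `g(0, x)` to the fibre over the fixed point is `c ∏ J`, `c ≠ 0`, where each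
hypersurface `J = 0` is escaping for `G_0 = G(0, ·)`: there are finitely many hypersurfaces
`P_i = 0`, `P_0 = J`, such that `G_0` maps `P_i = 0` to `P_(i + 1) = 0`, and such that `P_i = 0` does
not meet `J = 0` for `i ≥ 1`. There may be no `J` at all (the hypersurface `g = 0` does not meet the
fibre `t = 0`); and the hyperplane `x_k = c` is escaping if the `k`-th coordinate of `G_0` is a
polynomial `g(x_k)` for which `c` is strictly preperiodic (second part).

Then the set of the `n` for which `g` vanishes at the `n`-th iterate of `(t, x)` is finite (so that the
Dynamical Mordell-Lang conjecture holds for `F` and all closed subsets of `g = 0`), for all complex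
points `(t, x)` such that

* `t` is mapped to `0` by an iterate of `b`, or
* `b` has algebraic coefficients and `t` is any complex number that is not preperiodic for `b`, or
* `t` is transcendental over the field generated by the coefficients of `b`.

The definitions (in the helper files):
* `asys b G` is the system `(b(X_0), G)`; `fib q` is `q(0, X_0, …, X_(M - 1))`;
* `Escaping G_0 J` is the property above;
* `pt F x` is the value of the system at `x`.

The proof: some iterate of `t` comes near to a preimage of `0` at a place whose residue characteristic
is large, where all data have good reduction. For algebraic `t` this is the unit equation; for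
transcendental `t` the place is constructed by a specialisation of `t` near one of the infinitely many
preimages of `0`. The reduction of the orbit then enters the fibre over `0`, where the reduction of the
hypersurface is met only finitely often.
-/

set_option autoImplicit false

namespace Pool.Agent.Results.MP_295d38_ag.FiniteReturns

open MvPolynomial Pool.Agent.H936R2 Pool.Agent.Y199.DM Pool.Agent.Q118.SK

/-- Hypersurfaces whose trace on the fixed fibre is escaping are met only finitely often. -/
theorem result :
    (∀ (M : ℕ) (b : Polynomial ℂ), 2 ≤ b.natDegree → b.coeff 0 = 0 → b.coeff 1 ≠ 0 →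
      ∀ (G : Fin M → MvPolynomial (Fin (M + 1)) ℂ) (g : MvPolynomial (Fin (M + 1)) ℂ) (c : ℂ)
        (m : Multiset (MvPolynomial (Fin M) ℂ)),
      c ≠ 0 → fib g = C c * m.prod → (∀ J ∈ m, Escaping (fun i => fib (G i)) J) →
      ∀ x : Fin (M + 1) → ℂ,
        ((∃ n, (fun z => b.eval z)^[n] (x 0) = 0) ∨
          ((∀ k, IsAlgebraic ℚ (b.coeff k)) ∧
            ∀ i j, i < j → (fun z => b.eval z)^[i] (x 0) ≠ (fun z => b.eval z)^[j] (x 0)) ∨
          Transcendental (IntermediateField.adjoin ℚ (Set.range b.coeff)) (x 0)) →
        {n : ℕ | eval ((pt (asys b G))^[n] x) g = 0}.Finite) ∧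
    ∀ (M : ℕ) (G : Fin M → MvPolynomial (Fin M) ℂ) (k : Fin M) (g : Polynomial ℂ),
      G k = Polynomial.aeval (X k) g → ∀ c : ℂ,
      (Set.range fun i : ℕ => (fun z => g.eval z)^[i] c).Finite →
      (∀ i : ℕ, 1 ≤ i → (fun z => g.eval z)^[i] c ≠ c) → Escaping G (X k - C c) :=
  ⟨fun _ b hd hb0 hb1 G g c m hc hg hm x hx =>
      aff_fin b hb0 G g c hc m hg hm x (reach_poly_of b hd hb0 hb1 _ hx),
    fun _ G k g hG c hfin hne => escaping_coord G k g hG c hfin hne⟩

end Pool.Agent.Results.MP_295d38_ag.FiniteReturns
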