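import Pool.Agent.Q116.DY.Fam

/-!
# MP_295d38_ag: the dynamical Mordell-Lang conjecture at 100 percent of the integral points, for maps
of affine spaces which are étale and preperiodic along one hypersurface

**Maps.** Let `F` be a polynomial self-map of the affine space of dimension `N` with complex
coefficients, and let `f ∈ ℤ[x_1, …, x_N]` be irreducible and not constant. Suppose that all points of
the hypersurface `f = 0` have the same finite orbit length: `F^b = F^a` on `f = 0`, `a < b`, and that
`F` is étale at a general point of `F^n(f = 0)`, `a ≤ n < b`, in the sense that the Jacobian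
determinant of `F` at `F^n(x)` is congruent to `c h(x)` modulo `f`, where `c ≠ 0` is a complex number
and `h ∈ ℤ[x]` is not divisible by `f`. Then for all `ε > 0` the dynamical Mordell-Lang conjecture
holds for `F`, for all closed sets `V` over `ℂ`, at all but `O(H ^ (N - 1 + ε))` of the about
`(2 H) ^ N` integral points `α` with `|α_j| ≤ H`.

For example this is true for all maps `F(x) = x + f(x) g(x) + f(x)^2 u(x)`, where `u` is any vector of
complex polynomials and `g` any vector of integral polynomials such that
`1 + ∑_j g_j ∂f/∂x_j` is not divisible by `f`, in particular for `F(x) = x + f(x)^2 u(x)`.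

**Families.** More generally let `F_t` be a family of polynomial self-maps of the affine space of
dimension `N` and `x(t)` a family of points, where the coefficients of `F_t` and the coordinates of
`x(t)` are complex polynomials in `t = (t_1, …, t_r)`. Suppose that the orbit of `x(t)` under `F_t` is
finite and étale along one hypersurface `f(t) = 0` of the space of parameters. Then for all but
`O(H ^ (r - 1 + ε))` of the integral parameters `t`, `|t_j| ≤ H`, the dynamical Mordell-Lang
conjecture holds for `F_t` at the point `x(t)`, for all `V`.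

For `r = 1` (one parameter) see the starting files of this problem and of MP_b15c9e_ag
(`OnePreperiodicMember`). The points where the conjecture is proved are not near to the hypersurface
in the complex topology: for 100 percent of the integral `t` the number `f(t)` has a large prime
divisor `p` which does not divide the values of the `h`, and modulo `p` the orbit becomes periodic at
étale points.

`DML F x` (`Pool.Agent.Q116.DY.Core`): for every set `S` of complex polynomials the set of the `n` such
that all members of `S` vanish at the `n`-th iterate of `x` is a finite union of arithmetic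
progressions `{q k + a : k ≥ 0}` (`q = 0` allowed). `pt F x` is the value and `jac F x` the Jacobian
matrix of the system `F` at `x` (over any ring of coefficients), `member F t` and `start x t` are the
members of the families, `toC f` is `f` with complex coefficients.
-/

set_option autoImplicit false

namespace Pool.Agent.Results.MP_295d38_ag.PreperiodicHypersurfaces

open MvPolynomial
open Pool.Agent.H936R2 (pt jac)
open Pool.Agent.Q116.DY (DML member start toC family_count)

/-- The polynomials of the `n`-th iterate of a polynomial map. -/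
noncomputable def iter {N : ℕ} (F : Fin N → MvPolynomial (Fin N) ℂ) :
    ℕ → Fin N → MvPolynomial (Fin N) ℂ
  | 0 => X
  | n + 1 => fun i => bind₁ (iter F n) (F i)

/-- The Jacobian determinant. -/
noncomputable def jacDet {N : ℕ} (F : Fin N → MvPolynomial (Fin N) ℂ) : MvPolynomial (Fin N) ℂ :=
  (Matrix.of fun i j => pderiv j (F i)).det

/-- Integral points of height at most `H` at which the conjecture may fail. -/
def exceptions {N : ℕ} (F : Fin N → MvPolynomial (Fin N) ℂ) (H : ℕ) : Set (Fin N → ℤ) :=
  {z | (∀ j, |z j| ≤ (H : ℤ)) ∧ ¬ DML F fun j => (z j : ℂ)}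

/-- The constant family. -/
noncomputable def const {N : ℕ} (F : Fin N → MvPolynomial (Fin N) ℂ) :
    Fin N → MvPolynomial (Fin N) (MvPolynomial (Fin N) ℂ) := fun i => map C (F i)

theorem pt_const {N : ℕ} (F : Fin N → MvPolynomial (Fin N) ℂ)
    (y : Fin N → MvPolynomial (Fin N) ℂ) : pt (const F) y = fun i => bind₁ y (F i) := by
  funext i
  rw [pt, const, eval_map]
  rfl

theorem orbit_const {N : ℕ} (F : Fin N → MvPolynomial (Fin N) ℂ) (n : ℕ) :
    (pt (const F))^[n] X = iter F n := by
  induction n with
  | zero => rfl
  | succ n ih =>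
    rw [Function.iterate_succ_apply', ih, pt_const]
    rfl

theorem jac_const {N : ℕ} (F : Fin N → MvPolynomial (Fin N) ℂ)
    (y : Fin N → MvPolynomial (Fin N) ℂ) : (jac (const F) y).det = bind₁ y (jacDet F) := by
  have h1 : bind₁ y (jacDet F) = (bind₁ y).toRingHom (jacDet F) := rfl
  rw [h1, jacDet, RingHom.map_det]
  congr 1
  ext i j
  rw [jac, const, pderiv_map, eval_map]
  rfl

theorem member_const {N : ℕ} (F : Fin N → MvPolynomial (Fin N) ℂ) (t : Fin N → ℂ) :
    member (const F) t = F := by
  funext i
  rw [member, const, map_map]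
  have h : (eval t).comp (C : ℂ →+* MvPolynomial (Fin N) ℂ) = RingHom.id ℂ := by
    ext a
    simp
  rw [h, map_id]

theorem start_X {N : ℕ} (t : Fin N → ℂ) : start (X : Fin N → MvPolynomial (Fin N) ℂ) t = t := by
  funext i
  rw [start, eval_X]

theorem maps {N : ℕ} (F : Fin N → MvPolynomial (Fin N) ℂ) (f : MvPolynomial (Fin N) ℤ)
    (hf : Irreducible f) (hd : f.totalDegree ≠ 0) (a b : ℕ) (hab : a < b)
    (hper : ∀ i, toC f ∣ iter F b i - iter F a i)
    (hjac : ∀ n, a ≤ n → n < b → ∃ h : MvPolynomial (Fin N) ℤ, ¬ f ∣ h ∧ ∃ c : ℂ, c ≠ 0 ∧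
      toC f ∣ bind₁ (iter F n) (jacDet F) - C c * toC h) {ε : ℝ} (hε : 0 < ε) :
    ∃ K : ℝ, ∀ H : ℕ, 1 ≤ H →
      ((exceptions F H).ncard : ℝ) ≤ K * (H : ℝ) ^ ((N : ℝ) - 1 + ε) := by
  obtain ⟨K, hK⟩ := family_count (const F) X f hf hd a b hab
    (fun i => by rw [orbit_const, orbit_const]; exact hper i)
    (fun n h1 h2 => by
      obtain ⟨h, h3, c, h4, h5⟩ := hjac n h1 h2
      refine ⟨h, h3, c, h4, ?_⟩
      rw [orbit_const, jac_const]
      exact h5) hε
  refine ⟨K, fun H hH => ?_⟩
  have h1 := hK H hH
  simp only [member_const, start_X] at h1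
  exact h1

/-- The determinant of a matrix of rank one plus the identity. -/
theorem det_one_add {N : ℕ} {R : Type} [CommRing R] (g v : Fin N → R) :
    (Matrix.of fun i j => (if i = j then 1 else 0) + g i * v j).det = 1 + ∑ j, g j * v j := by
  have h1 : (Matrix.of fun i j => (if i = j then (1 : R) else 0) + g i * v j) =
      1 + Matrix.replicateCol Unit g * Matrix.replicateRow Unit v := by
    ext i j
    simp [Matrix.one_apply, Matrix.mul_apply]
  rw [h1, Matrix.det_one_add_replicateCol_mul_replicateRow, dotProduct]
  congr 1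
  exact Finset.sum_congr rfl fun j _ => mul_comm _ _

/-- **Dynamical Mordell-Lang along hypersurfaces of preperiodic points.**

(1) Let `F` be a complex polynomial map of the affine space of dimension `N`, and let
`f ∈ ℤ[x_1, …, x_N]` be irreducible and not constant, such that `F^b = F^a` on `f = 0`, and such that
for `a ≤ n < b` the Jacobian determinant of `F` at `F^n(x)` is congruent to `c h` modulo `f`, where
`c ≠ 0` and `h ∈ ℤ[x]` is not divisible by `f`. Then the conjecture holds for `F` and all `V` at all but
`O(H ^ (N - 1 + ε))` of the integral points of height at most `H`.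

(2) This is true for all maps `F(x) = x + f(x) g(x) + f(x)^2 u(x)`, where `u` is any vector of complex
polynomials and `g` any vector of integral polynomials such that `1 + ∑_j g_j ∂f/∂x_j` is not
divisible by `f`.

(3) Let `F_t` be a family of complex polynomial maps of the affine space of dimension `N` with `r`
parameters, and `x(t)` a family of points, such that `F_t^b(x(t)) = F_t^a(x(t))` on the hypersurface
`f(t) = 0` of the space of parameters, `f ∈ ℤ[t_1, …, t_r]` irreducible and not constant, and such that
for `a ≤ n < b` the Jacobian determinant of `F_t` at `F_t^n(x(t))` is congruent to `c h(t)` modulo `f`,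
`c ≠ 0`, `h` in `ℤ[t]` not divisible by `f`. Then the conjecture holds for `F_t`, `x(t)` and all `V`, for
all but `O(H ^ (r - 1 + ε))` of the integral parameters `t` of height at most `H`. -/
theorem result {ε : ℝ} (hε : 0 < ε) :
    (∀ (N : ℕ) (F : Fin N → MvPolynomial (Fin N) ℂ) (f : MvPolynomial (Fin N) ℤ),
      Irreducible f → f.totalDegree ≠ 0 → ∀ a b : ℕ, a < b →
      (∀ i, toC f ∣ iter F b i - iter F a i) →
      (∀ n, a ≤ n → n < b → ∃ h : MvPolynomial (Fin N) ℤ, ¬ f ∣ h ∧ ∃ c : ℂ, c ≠ 0 ∧
        toC f ∣ bind₁ (iter F n) (jacDet F) - C c * toC h) →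
      ∃ K : ℝ, ∀ H : ℕ, 1 ≤ H →
        ((exceptions F H).ncard : ℝ) ≤ K * (H : ℝ) ^ ((N : ℝ) - 1 + ε)) ∧
    (∀ (N : ℕ) (f : MvPolynomial (Fin N) ℤ), Irreducible f → f.totalDegree ≠ 0 →
      ∀ (g : Fin N → MvPolynomial (Fin N) ℤ) (u : Fin N → MvPolynomial (Fin N) ℂ),
      ¬ f ∣ 1 + ∑ j, g j * pderiv j f →
      ∃ K : ℝ, ∀ H : ℕ, 1 ≤ H →
        ((exceptions (fun i => X i + toC f * toC (g i) + toC f ^ 2 * u i) H).ncard : ℝ) ≤
          K * (H : ℝ) ^ ((N : ℝ) - 1 + ε)) ∧
    ∀ (N r : ℕ) (F : Fin N → MvPolynomial (Fin N) (MvPolynomial (Fin r) ℂ))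
      (x : Fin N → MvPolynomial (Fin r) ℂ) (f : MvPolynomial (Fin r) ℤ),
      Irreducible f → f.totalDegree ≠ 0 → ∀ a b : ℕ, a < b →
      (∀ i, toC f ∣ (pt F)^[b] x i - (pt F)^[a] x i) →
      (∀ n, a ≤ n → n < b → ∃ h : MvPolynomial (Fin r) ℤ, ¬ f ∣ h ∧ ∃ c : ℂ, c ≠ 0 ∧
        toC f ∣ (jac F ((pt F)^[n] x)).det - C c * toC h) →
      ∃ K : ℝ, ∀ H : ℕ, 1 ≤ H →
        (Set.ncard {t : Fin r → ℤ | (∀ j, |t j| ≤ (H : ℤ)) ∧
          ¬ DML (member F fun j => (t j : ℂ)) (start x fun j => (t j : ℂ))} : ℝ) ≤
            K * (H : ℝ) ^ ((r : ℝ) - 1 + ε) := by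
  refine ⟨fun N F f hf hd a b hab hper hjac => maps F f hf hd a b hab hper hjac hε,
    fun N f hf hd g u hnd => ?_,
    fun N r F x f hf hd a b hab hper hjac => family_count F x f hf hd a b hab hper hjac hε⟩
  refine maps _ f hf hd 0 1 one_pos (fun i => ?_) (fun n _ hn => ?_) hε
  · change toC f ∣ bind₁ X (X i + toC f * toC (g i) + toC f ^ 2 * u i) - X i
    rw [bind₁_X_left, AlgHom.id_apply]
    exact ⟨toC (g i) + toC f * u i, by ring⟩
  · obtain rfl : n = 0 := by omega
    refine ⟨1 + ∑ j, g j * pderiv j f, hnd, 1, one_ne_zero, ?_⟩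
    have h1 : bind₁ (iter (fun i => X i + toC f * toC (g i) + toC f ^ 2 * u i) 0)
        (jacDet fun i => X i + toC f * toC (g i) + toC f ^ 2 * u i) =
        jacDet fun i => X i + toC f * toC (g i) + toC f ^ 2 * u i := by
      change bind₁ X _ = _
      rw [bind₁_X_left, AlgHom.id_apply]
    rw [h1, map_one, one_mul]
    -- modulo `f`
    rw [← Ideal.mem_span_singleton, ← Ideal.Quotient.eq_zero_iff_mem, map_sub, sub_eq_zero]
    have hf0 : Ideal.Quotient.mk (Ideal.span {toC f}) (toC f) = 0 := by
      rw [Ideal.Quotient.eq_zero_iff_mem]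
      exact Ideal.mem_span_singleton_self _
    rw [jacDet, RingHom.map_det]
    have h2 : (Ideal.Quotient.mk (Ideal.span {toC f})).mapMatrix (Matrix.of fun i j =>
        pderiv j ((fun i => X i + toC f * toC (g i) + toC f ^ 2 * u i) i)) =
        Matrix.of fun i j => (if i = j then 1 else 0) +
          Ideal.Quotient.mk (Ideal.span {toC f}) (toC (g i)) *
          Ideal.Quotient.mk (Ideal.span {toC f}) (toC (pderiv j f)) := by
      ext i j
      have hder : pderiv j (X i + toC f * toC (g i) + toC f ^ 2 * u i) =
          (Pi.single j 1 : Fin N → MvPolynomial (Fin N) ℂ) i +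
            (toC f * pderiv j (toC (g i)) + toC (g i) * pderiv j (toC f)) +
            (toC f ^ 2 * pderiv j (u i) + u i * (2 * toC f * pderiv j (toC f))) := by
        rw [map_add, map_add, Derivation.leibniz, Derivation.leibniz, Derivation.leibniz_pow,
          pderiv_X]
        simp only [smul_eq_mul, nsmul_eq_mul, Nat.add_one_sub_one, pow_one, Nat.cast_ofNat]
        ring
      rw [RingHom.mapMatrix_apply, Matrix.map_apply, Matrix.of_apply, Matrix.of_apply, hder]
      simp only [map_add, map_mul, map_pow, hf0]
      have hpm : pderiv j (toC f) = toC (pderiv j f) := pderiv_map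
      rw [hpm, Pi.single_apply]
      by_cases h : i = j
      · rw [if_pos h, if_pos h, map_one]
        ring
      · rw [if_neg h, if_neg h, map_zero]
        ring
    rw [h2, det_one_add]
    have h3 : toC (1 + ∑ j, g j * pderiv j f) = 1 + ∑ j, toC (g j) * toC (pderiv j f) := by
      rw [toC, map_add, map_one, map_sum]
      congr 1
      exact Finset.sum_congr rfl fun j _ => by rw [map_mul]
    rw [h3, map_add, map_one, map_sum]
    congr 1

end Pool.Agent.Results.MP_295d38_ag.PreperiodicHypersurfaces
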